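import Pool.Agent.R683.Upper
import Pool.Agent.R683.Low

/-!
# The maximum `p`-length of `p`-solvable subgroups of `GL(n,q)`

For every prime `p` and every power `q` of `p`, the ratio `m_n(q) / log₂ n` tends to
`1 / log₂ max(p, 3)`.
-/

set_option autoImplicit false

namespace Pool.Agent.Results.MP_d3ab46_al.Limit

open Pool.Agent.Helper407.PL Pool.Agent.R683.Crit Pool.Agent.R683.Rec Pool.Agent.R683.Low
  Filter Topology

/-- `G` is `p`-solvable: every composition factor `B / A` of `G` (`B` subnormal in `G`, `A` normal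
in `B`, `B / A` simple) has order `p` or order coprime to `p`. -/
def PSolvable (p : ℕ) (G : Type) [Group G] : Prop :=
  ∀ A B : Subgroup G, B.IsSubnormal → A ≤ B → ∀ _ : (A.subgroupOf B).Normal,
    IsSimpleGroup (B ⧸ A.subgroupOf B) → A.relIndex B = p ∨ (A.relIndex B).Coprime p

/-- `1 = S 0 ≤ S 1 ≤ ⋯ ≤ S k = G` is a series of normal subgroups of `G` in which every factor is
a `p`-group or a `p'`-group. -/
structure IsPSeries (p : ℕ) {G : Type} [Group G] (k : ℕ) (S : ℕ → Subgroup G) : Prop where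
  bot : S 0 = ⊥
  top : S k = ⊤
  normal : ∀ i ≤ k, (S i).Normal
  le : ∀ i < k, S i ≤ S (i + 1)
  factor : ∀ i < k, (∃ m, (S i).relIndex (S (i + 1)) = p ^ m) ∨
    ((S i).relIndex (S (i + 1))).Coprime p

/-- the number of factors of the series that are nontrivial `p`-groups -/
noncomputable def numP (p : ℕ) {G : Type} [Group G] (k : ℕ) (S : ℕ → Subgroup G) : ℕ :=
  {i | i < k ∧ ∃ m, 0 < m ∧ (S i).relIndex (S (i + 1)) = p ^ m}.ncard

/-- the `p`-length: the smallest number of nontrivial `p`-factors in such a series -/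
noncomputable def pLength (p : ℕ) (G : Type) [Group G] : ℕ :=
  sInf {l | ∃ (k : ℕ) (S : ℕ → Subgroup G), IsPSeries p k S ∧ numP p k S = l}

/-- `m_n(q)`: the maximum of the `p`-lengths of the `p`-solvable subgroups of `GL(n, F)` -/
noncomputable def mMax (p n : ℕ) (F : Type) [Field F] : ℕ :=
  sSup {l | ∃ H : Subgroup (GL (Fin n) F), PSolvable p H ∧ pLength p H = l}

/-! ### series -/

section series

variable {G : Type} [Group G] [Finite G] {p : ℕ} [hp : Fact p.Prime]

/-- a `p`-solvable group has a series of normal subgroups with `p`- and `p'`-factors -/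
theorem rlp_of_pSolvable (h : PSolvable p G) : ∃ N, RLp p N (⊥ : Subgroup G) ⊤ := by
  classical
  obtain ⟨N, hN⟩ := (Set.toFinite {N : Subgroup G | Inv ⊤ N ∧ ∃ k, RLp p k ⊥ N}).exists_maximal
    ⟨⊥, Inv.bot _, 0, RLp.refl _ _⟩
  obtain ⟨hNi, k, hk⟩ := hN.prop
  by_cases hNt : N = ⊤
  · rw [hNt] at hk
    exact ⟨k, hk⟩
  exfalso
  obtain ⟨M, hM⟩ := (Set.toFinite {M : Subgroup G | Inv ⊤ M ∧ N < M}).exists_minimal
    ⟨⊤, Inv.self _, lt_top_iff_ne_top.2 hNt⟩
  obtain ⟨hMi, hNM⟩ := hM.prop
  have hNn : N.Normal := inv_normal hNi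
  have hMn : M.Normal := inv_normal hMi
  -- a maximal normal subgroup of M
  obtain ⟨A, hA⟩ := (Set.toFinite {A : Subgroup G | N ≤ A ∧ A < M ∧ Inv M A}).exists_maximal
    ⟨N, le_rfl, hNM, hNi.mono le_top⟩
  obtain ⟨hNA, hAM, hAi⟩ := hA.prop
  have hAn : (A.subgroupOf M).Normal := by
    constructor
    intro x hx g
    rw [Subgroup.mem_subgroupOf] at hx ⊢
    exact hAi g g.2 x hx
  have hsimple : IsSimpleGroup (M ⧸ A.subgroupOf M) := by
    have hnt : Nontrivial (M ⧸ A.subgroupOf M) := by
      rw [QuotientGroup.nontrivial_iff]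
      intro h
      rw [Subgroup.subgroupOf_eq_top] at h
      exact hAM.not_ge h
    refine { hnt with eq_bot_or_eq_top_of_normal := ?_ }
    intro X hX
    obtain ⟨Z, hZ⟩ : ∃ Z : Subgroup G,
        Z = (X.comap (QuotientGroup.mk' (A.subgroupOf M))).map M.subtype := ⟨_, rfl⟩
    have hZM : Z ≤ M := by rw [hZ]; exact Subgroup.map_subtype_le _
    have hmem : ∀ x : M, (x : G) ∈ Z ↔ QuotientGroup.mk' (A.subgroupOf M) x ∈ X := by
      intro x
      rw [hZ, Subgroup.mem_map]
      constructor
      · rintro ⟨y, hy, hyx⟩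
        have : y = x := Subtype.ext hyx
        rwa [this] at hy
      · intro hx
        exact ⟨x, hx, rfl⟩
    have hAZ : A ≤ Z := by
      intro a ha
      have h1 := (hmem ⟨a, hAM.le ha⟩).2 (by
        have : QuotientGroup.mk' (A.subgroupOf M) ⟨a, hAM.le ha⟩ = 1 :=
          (QuotientGroup.eq_one_iff _).2 (Subgroup.mem_subgroupOf.2 ha)
        rw [this]
        exact X.one_mem)
      exact h1
    have hZi : Inv M Z := by
      intro g hg x hx
      have h1 := (hmem ⟨x, hZM hx⟩).1 hx
      have h2 := hX.conj_mem _ h1 (QuotientGroup.mk' (A.subgroupOf M) ⟨g, hg⟩)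
      rw [← map_mul, ← map_inv, ← map_mul, ← hmem] at h2
      exact h2
    by_cases hZt : Z = M
    · right
      rw [eq_top_iff]
      intro y _
      obtain ⟨y, rfl⟩ := QuotientGroup.mk'_surjective _ y
      rw [← hmem, hZt]
      exact y.2
    · left
      have h1 : Z ≤ A := hA.le_of_ge ⟨hNA.trans hAZ, lt_of_le_of_ne hZM hZt, hZi⟩ hAZ
      rw [eq_bot_iff]
      intro y hy
      obtain ⟨y, rfl⟩ := QuotientGroup.mk'_surjective _ y
      rw [← hmem] at hy
      rw [Subgroup.mem_bot]
      exact (QuotientGroup.eq_one_iff _).2 (Subgroup.mem_subgroupOf.2 (h1 hy))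
  have hMsub : M.IsSubnormal := Subgroup.IsSubnormal.step M ⊤ le_top Subgroup.IsSubnormal.top
    (by infer_instance)
  have hpow : ∀ b ∈ M, b ^ (A.relIndex M) ∈ A := by
    intro b hb
    have h1 := Subgroup.pow_index_mem (A.subgroupOf M) (⟨b, hb⟩ : M)
    rw [Subgroup.mem_subgroupOf] at h1
    exact h1
  have hcN : core ⊤ A = N := by
    by_contra hne
    have h1 : N ≤ core ⊤ A := by
      intro x hx g hg
      exact hNA (hNi g hg x hx)
    have h2 : core ⊤ A ∈ {M : Subgroup G | Inv ⊤ M ∧ N < M} :=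
      ⟨core_inv _ _, lt_of_le_of_ne h1 (Ne.symm hne)⟩
    have h3 : core ⊤ A ≤ M := (core_le _ _).trans hAM.le
    have h4 := hM.le_of_le h2 h3
    exact hAM.not_ge (h4.trans (core_le _ _))
  have hcM : core ⊤ M = M := core_eq hMi
  have hfac : RLp p 1 N M := by
    rcases h A M hMsub hAM.le hAn hsimple with h1 | h1
    · have h2 : PF p A M := by
        intro b hb
        refine ⟨1, ?_⟩
        rw [pow_one, ← h1]
        exact hpow b hb
      have h3 := h2.core (N := ⊤)
      rw [hcN, hcM] at h3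
      exact RLp.of_PF h3 hNM.le (hNi.mono le_top)
    · have h2 : PF' p A M := by
        intro b hb
        exact ⟨A.relIndex M, h1, hpow b hb⟩
      have h3 := h2.core (N := ⊤)
      rw [hcN, hcM] at h3
      exact RLp.of_PF' 1 h3 hNM.le (hNi.mono le_top)
  have h1 := hk.trans hfac (Inv.bot _)
  have h2 : M ≤ N := hN.le_of_ge ⟨hMi, _, h1⟩ hNM.le
  exact hNM.not_ge h2

/-- comparison of the two kinds of series -/
theorem pLength_le {n : ℕ} (h : RLp p n (⊥ : Subgroup G) ⊤) :
    (∃ (k : ℕ) (S : ℕ → Subgroup G), IsPSeries p k S ∧ numP p k S ≤ n) := by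
  classical
  obtain ⟨S, h0, h1, h2, h3, h4, h5⟩ := h
  have hn : ∀ i, ((S i).subgroupOf (S (i + 1))).Normal := by
    intro i
    have : (S i).Normal := inv_normal (h2 i)
    infer_instance
  have hfac' : ∀ j ≤ n, ((S (2 * j)).relIndex (S (2 * j + 1))).Coprime p := fun j hj =>
    PF'_index (hn _) (h4 j hj)
  have hfac : ∀ j < n, ∃ m, (S (2 * j + 1)).relIndex (S (2 * j + 1 + 1)) = p ^ m := fun j hj =>
    PF_index (hn _) (h5 j hj)
  refine ⟨2 * n + 1, S, ⟨h0, h1, fun i _ => inv_normal (h2 i), fun i _ => h3 i, ?_⟩, ?_⟩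
  · intro i hi
    rcases Nat.even_or_odd' i with ⟨j, rfl | rfl⟩
    · right
      exact hfac' j (by omega)
    · left
      exact hfac j (by omega)
  · unfold numP
    have hsub : {i | i < 2 * n + 1 ∧ ∃ m, 0 < m ∧ (S i).relIndex (S (i + 1)) = p ^ m} ⊆
        ((Finset.range n).image (fun j => 2 * j + 1) : Finset ℕ) := by
      rintro i ⟨hi, m, hm, hm'⟩
      rcases Nat.even_or_odd' i with ⟨j, rfl | rfl⟩
      · exfalso
        have h6 := hfac' j (by omega)
        rw [hm'] at h6
        have h7 : p ∣ p ^ m := dvd_pow_self p hm.ne'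
        have h8 : (p ^ m).gcd p = p := Nat.gcd_eq_right h7
        rw [Nat.Coprime, h8] at h6
        exact hp.out.ne_one h6
      · rw [Finset.mem_coe, Finset.mem_image]
        exact ⟨j, Finset.mem_range.2 (by omega), rfl⟩
    refine (Set.ncard_le_ncard hsub (Finset.finite_toSet _)).trans ?_
    rw [Set.ncard_coe_finset]
    exact Finset.card_image_le.trans (by rw [Finset.card_range])

theorem pLength_le' {n : ℕ} (h : RLp p n (⊥ : Subgroup G) ⊤) : pLength p G ≤ n := by
  obtain ⟨k, S, h1, h2⟩ := pLength_le h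
  have h3 : numP p k S ∈ {l | ∃ (k : ℕ) (S : ℕ → Subgroup G), IsPSeries p k S ∧ numP p k S = l} :=
    ⟨k, S, h1, rfl⟩
  exact (Nat.sInf_le h3).trans h2

/-- a series gives a bound in the other formalism -/
theorem rlp_of_series {k : ℕ} {S : ℕ → Subgroup G} (h : IsPSeries p k S) :
    RLp p (numP p k S) (⊥ : Subgroup G) ⊤ := by
  classical
  have key : ∀ j ≤ k, RLp p (numP p j S) ⊥ (S j) := by
    intro j
    induction j with
    | zero =>
      intro _
      rw [h.bot]
      exact RLp.refl _ _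
    | succ j ih =>
      intro hj
      have ih' := ih (by omega)
      have hn : ((S j).subgroupOf (S (j + 1))).Normal := by
        have : (S j).Normal := h.normal j (by omega)
        infer_instance
      have hpow : ∀ b ∈ S (j + 1), b ^ ((S j).relIndex (S (j + 1))) ∈ S j := by
        intro b hb
        have h1 := Subgroup.pow_index_mem ((S j).subgroupOf (S (j + 1))) (⟨b, hb⟩ : S (j + 1))
        rw [Subgroup.mem_subgroupOf] at h1
        exact h1
      have hfin : {i | i < j ∧ ∃ m, 0 < m ∧ (S i).relIndex (S (i + 1)) = p ^ m}.Finite :=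
        (Set.finite_lt_nat j).subset (fun i hi => hi.1)
      have hinv : Inv (S (j + 1)) (S j) := by
        have : (S j).Normal := h.normal j (by omega)
        exact Inv.of_normal _ _
      by_cases hP : ∃ m, 0 < m ∧ (S j).relIndex (S (j + 1)) = p ^ m
      · have h1 : numP p (j + 1) S = numP p j S + 1 := by
          unfold numP
          have h2 : {i | i < j + 1 ∧ ∃ m, 0 < m ∧ (S i).relIndex (S (i + 1)) = p ^ m} =
              insert j {i | i < j ∧ ∃ m, 0 < m ∧ (S i).relIndex (S (i + 1)) = p ^ m} := by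
            ext i
            simp only [Set.mem_insert_iff, Set.mem_setOf_eq]
            constructor
            · rintro ⟨h3, h4⟩
              rcases Nat.lt_succ_iff_lt_or_eq.1 h3 with h5 | h5
              · exact Or.inr ⟨h5, h4⟩
              · exact Or.inl h5
            · rintro (h3 | ⟨h3, h4⟩)
              · rw [h3]
                exact ⟨Nat.lt_succ_self j, hP⟩
              · exact ⟨by omega, h4⟩
          rw [h2, Set.ncard_insert_of_notMem (by simp) hfin]
        rw [h1]
        obtain ⟨m, -, hm⟩ := hP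
        refine ih'.trans (RLp.of_PF ?_ (h.le j (by omega)) hinv) (Inv.bot _)
        intro b hb
        exact ⟨m, hm ▸ hpow b hb⟩
      · have h1 : numP p (j + 1) S = numP p j S + 0 := by
          unfold numP
          have h2 : {i | i < j + 1 ∧ ∃ m, 0 < m ∧ (S i).relIndex (S (i + 1)) = p ^ m} =
              {i | i < j ∧ ∃ m, 0 < m ∧ (S i).relIndex (S (i + 1)) = p ^ m} := by
            ext i
            simp only [Set.mem_setOf_eq]
            constructor
            · rintro ⟨h3, h4⟩
              rcases Nat.lt_succ_iff_lt_or_eq.1 h3 with h5 | h5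
              · exact ⟨h5, h4⟩
              · rw [h5] at h4
                exact absurd h4 hP
            · rintro ⟨h3, h4⟩
              exact ⟨by omega, h4⟩
          rw [h2, Nat.add_zero]
        rw [h1]
        refine ih'.trans ?_ (Inv.bot _)
        rcases h.factor j (by omega) with ⟨m, hm⟩ | hcop
        · rcases Nat.eq_zero_or_pos m with h0 | h0
          · rw [h0, pow_zero, Subgroup.relIndex_eq_one] at hm
            have h3 : S (j + 1) = S j := le_antisymm hm (h.le j (by omega))
            rw [h3]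
            exact RLp.refl _ _
          · exact absurd ⟨m, h0, hm⟩ hP
        · refine RLp.of_PF' 0 ?_ (h.le j (by omega)) hinv
          intro b hb
          exact ⟨_, hcop, hpow b hb⟩
  have h1 := key k le_rfl
  rwa [h.top] at h1

/-- the `p`-length in the two formalisms -/
theorem lt_pLength (hps : PSolvable p G) {n : ℕ} (h : ¬ RLp p n (⊥ : Subgroup G) ⊤) :
    n < pLength p G := by
  by_contra hcon
  push Not at hcon
  apply h
  obtain ⟨N, hN⟩ := rlp_of_pSolvable hps
  obtain ⟨k, S, h1, -⟩ := pLength_le hN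
  have hne : {l | ∃ (k : ℕ) (S : ℕ → Subgroup G), IsPSeries p k S ∧ numP p k S = l}.Nonempty :=
    ⟨_, k, S, h1, rfl⟩
  obtain ⟨k', S', h2, h3⟩ := Nat.sInf_mem hne
  have h4 := rlp_of_series h2
  rw [h3] at h4
  exact h4.mono_n hcon

omit [Finite G] in
/-- solvable groups are `p`-solvable -/
theorem pSolvable_of_solvable [Group.IsSolvable G] : PSolvable p G := by
  intro A B _ _ _ hs
  have h1 : ∀ a b : B ⧸ A.subgroupOf B, a * b = b * a :=
    IsSimpleGroup.comm_iff_isSolvable.2 inferInstance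
  let _ : CommGroup (B ⧸ A.subgroupOf B) :=
    { (inferInstance : Group (B ⧸ A.subgroupOf B)) with mul_comm := h1 }
  have h2 : (Nat.card (B ⧸ A.subgroupOf B)).Prime := IsSimpleGroup.prime_card
  have h3 : A.relIndex B = Nat.card (B ⧸ A.subgroupOf B) := rfl
  rw [h3]
  by_cases h4 : Nat.card (B ⧸ A.subgroupOf B) = p
  · exact Or.inl h4
  · exact Or.inr ((Nat.coprime_primes h2 hp.out).2 h4)

end series

/-! ### linear groups -/

section linear

variable {p : ℕ} [hp : Fact p.Prime] {F : Type} [Field F] [Finite F] [CharP F p]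

/-- the action on the multiplicative version of the vector space -/
noncomputable def actHom (n : ℕ) (F : Type) [Field F] :
    GL (Fin n) F →* MulAut (Multiplicative (Fin n → F)) where
  toFun g := AddEquiv.toMultiplicative
    ((LinearMap.GeneralLinearGroup.generalLinearEquiv F (Fin n → F)
      (Matrix.GeneralLinearGroup.toLin g)).toAddEquiv)
  map_one' := by
    rw [map_one, map_one]
    rfl
  map_mul' g h := by
    rw [map_mul, map_mul]
    rfl

lemma actHom_injective (n : ℕ) : Function.Injective (actHom n F) := by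
  intro g h hgh
  apply (Matrix.GeneralLinearGroup.toLin (n := Fin n) (R := F)).injective
  apply (LinearMap.GeneralLinearGroup.generalLinearEquiv F (Fin n → F)).injective
  apply LinearEquiv.ext
  intro v
  have h1 := DFunLike.congr_fun hgh (Multiplicative.ofAdd v)
  exact h1

omit [Finite F] in
lemma card_space (n : ℕ) : Nat.card (Fin n → F) = Nat.card F ^ n := by
  rw [Nat.card_fun, Nat.card_eq_fintype_card (α := Fin n), Fintype.card_fin]

lemma card_field : ∃ a, 0 < a ∧ Nat.card F = p ^ a := by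
  have : Fintype F := Fintype.ofFinite F
  obtain ⟨a, -, ha⟩ := FiniteField.card F p
  exact ⟨a, a.2, by rw [Nat.card_eq_fintype_card, ha]⟩

lemma pSolvable_bot (n : ℕ) : PSolvable p (⊥ : Subgroup (GL (Fin n) F)) := by
  intro A B _ _ hn hs
  exfalso
  have h1 : Subsingleton (B ⧸ A.subgroupOf B) := by
    rw [QuotientGroup.subsingleton_iff]
    rw [Subgroup.subgroupOf_eq_top]
    intro x _
    have : x = 1 := Subsingleton.elim _ _
    rw [this]
    exact A.one_mem
  exact not_subsingleton (B ⧸ A.subgroupOf B) h1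

omit [Finite F] [CharP F p] in
theorem bddAbove_mMax [Finite F] (n : ℕ) :
    BddAbove {l | ∃ H : Subgroup (GL (Fin n) F), PSolvable p H ∧ pLength p H = l} := by
  classical
  have : Fintype F := Fintype.ofFinite F
  have hfinGL : Finite (GL (Fin n) F) := by infer_instance
  refine ⟨Nat.card (GL (Fin n) F), ?_⟩
  rintro l ⟨H, hH, rfl⟩
  obtain ⟨N, hN⟩ := rlp_of_pSolvable hH
  have h1 := hN.of_index
  rw [Subgroup.relIndex_bot_left, Subgroup.card_top] at h1
  exact (pLength_le' h1).trans (Subgroup.card_le_card_group H)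

theorem isGreatest_mMax (n : ℕ) :
    IsGreatest {l | ∃ H : Subgroup (GL (Fin n) F), PSolvable p H ∧ pLength p H = l}
      (mMax p n F) := by
  have hne : {l | ∃ H : Subgroup (GL (Fin n) F), PSolvable p H ∧ pLength p H = l}.Nonempty :=
    ⟨_, ⊥, pSolvable_bot n, rfl⟩
  exact ⟨Nat.sSup_mem hne (bddAbove_mMax n), fun l hl => le_csSup (bddAbove_mMax n) hl⟩

/-- the upper bound -/
theorem mMax_le (n : ℕ) (A : ℕ)
    (hA : 8 * Real.logb 2 (Nat.log 2 (Nat.card F ^ n)) < (289 / 144 : ℝ) ^ A) :
    mMax p n F ≤ A + 4 + Nat.log (cc p) (Nat.log 2 (Nat.card F ^ n)) := by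
  classical
  have : Fintype F := Fintype.ofFinite F
  have hfinGL : Finite (GL (Fin n) F) := by infer_instance
  obtain ⟨H, hH, hl⟩ := (isGreatest_mMax (p := p) (F := F) n).1
  rw [← hl]
  obtain ⟨a, ha0, ha⟩ := card_field (p := p) (F := F)
  have h1 := Pool.Agent.R683.Upper.upper p (rlp_of_pSolvable hH) (Fin n → F)
    ((actHom n F).comp H.subtype) ((actHom_injective n).comp H.subtype_injective)
    ⟨a * n, by rw [card_space, ha, ← pow_mul]⟩ A (by rw [card_space]; exact hA)
  rw [card_space] at h1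
  exact pLength_le' h1

/-- permutation matrices -/
noncomputable def permGL (n : ℕ) (F : Type) [Field F] : Equiv.Perm (Fin n) →* GL (Fin n) F :=
  ((Matrix.GeneralLinearGroup.toLin (n := Fin n) (R := F)).symm.toMonoidHom.comp
    (LinearMap.GeneralLinearGroup.generalLinearEquiv F (Fin n → F)).symm.toMonoidHom).comp
    { toFun := fun σ => LinearEquiv.funCongrLeft F F (σ⁻¹ : Equiv.Perm (Fin n))
      map_one' := by
        ext f i
        rfl
      map_mul' := fun σ τ => by
        rw [mul_inv_rev]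
        rfl }

omit [Finite F] in
lemma permGL_injective (n : ℕ) : Function.Injective (permGL n F) := by
  intro σ τ h
  have h1 := (LinearMap.GeneralLinearGroup.generalLinearEquiv F (Fin n → F)).symm.injective
    ((Matrix.GeneralLinearGroup.toLin (n := Fin n) (R := F)).symm.injective h)
  have h2 : ∀ f : Fin n → F, f ∘ (σ⁻¹ : Equiv.Perm (Fin n)) = f ∘ (τ⁻¹ : Equiv.Perm (Fin n)) :=
    fun f => LinearEquiv.congr_fun h1 f
  apply inv_injective
  apply Equiv.ext
  intro i
  have h3 := congrFun (h2 (Pi.single ((τ⁻¹ : Equiv.Perm (Fin n)) i) 1)) i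
  simp only [Function.comp_apply, Pi.single_eq_same] at h3
  by_contra hne
  rw [Pi.single_eq_of_ne hne] at h3
  exact zero_ne_one h3

/-- the lower bound -/
theorem le_mMax (hlow : S_LOW) (n : ℕ) (hn : 1 ≤ n) : Nat.log (cc p) n ≤ mMax p n F := by
  classical
  have : Fintype F := Fintype.ofFinite F
  have hfinGL : Finite (GL (Fin n) F) := by infer_instance
  rcases Nat.eq_zero_or_pos (Nat.log (cc p) n) with h0 | h0
  · rw [h0]; exact Nat.zero_le _
  obtain ⟨k, hk⟩ := Nat.exists_eq_succ_of_ne_zero h0.ne'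
  obtain ⟨T, _, _, X, _, φ, hφ, hX, hTs, hTn⟩ := hlow p k
  have hle : Nat.card X ≤ n := by
    rw [hX, ← Nat.succ_eq_add_one, ← hk]
    exact Nat.pow_log_le_self _ (by omega)
  have : Fintype X := Fintype.ofFinite X
  have hemb : Nonempty (X ↪ Fin n) := by
    apply Function.Embedding.nonempty_of_card_le
    rw [Fintype.card_fin, ← Nat.card_eq_fintype_card]
    exact hle
  obtain ⟨ι⟩ := hemb
  let ψ : T →* GL (Fin n) F := (permGL n F).comp ((Equiv.Perm.viaEmbeddingHom ι).comp φ)
  have hψ : Function.Injective ψ := (permGL_injective n).comp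
    ((Equiv.Perm.viaEmbeddingHom_injective ι).comp hφ)
  have hHs : Group.IsSolvable ψ.range :=
    Group.isSolvable_of_surjective (f := ψ.rangeRestrict) ψ.rangeRestrict_surjective
  have hHn : ¬ RLp p k (⊥ : Subgroup ψ.range) ⊤ := by
    intro h
    apply hTn
    have h1 := h.comap ψ.rangeRestrict
    rwa [Subgroup.comap_top, MonoidHom.comap_bot, MonoidHom.ker_rangeRestrict,
      (MonoidHom.ker_eq_bot_iff ψ).2 hψ] at h1
  have h1 := lt_pLength (pSolvable_of_solvable (p := p) (G := ψ.range)) hHn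
  have h2 : pLength p ψ.range ≤ mMax p n F :=
    (isGreatest_mMax (p := p) (F := F) n).2 ⟨ψ.range, pSolvable_of_solvable, rfl⟩
  omega

end linear

/-! ### the limit -/

lemma cc_eq (p : ℕ) (hp : p.Prime) : cc p = max p 3 := by
  unfold cc
  split_ifs with h
  · rw [h]; rfl
  · have := hp.two_le
    rw [max_eq_left (by omega)]

lemma cc_ge (p : ℕ) (hp : p.Prime) : 3 ≤ cc p := by
  rw [cc_eq p hp]; exact le_max_right _ _

lemma log_gt {c : ℕ} (hc : 3 ≤ c) : 1 < Real.logb 2 c := by
  have h : (3 : ℝ) ≤ c := by exact_mod_cast hc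
  rw [Real.lt_logb_iff_rpow_lt (by norm_num) (by linarith), Real.rpow_one]
  linarith

/-- the growth of the auxiliary exponent -/
lemma exists_A (β ε : ℝ) (hβ : 1 ≤ β) (hε : 0 < ε) : ∀ᶠ n : ℕ in atTop,
    8 * Real.logb 2 (n * β) < (289 / 144 : ℝ) ^ ⌈ε * Real.logb 2 n⌉₊ := by
  have hlog2 : 0 < Real.log 2 := Real.log_pos (by norm_num)
  have h1 : ∀ᶠ x : ℝ in atTop, ‖Real.log x‖ ≤ Real.log 2 / 32 * ‖x ^ ε‖ :=
    (isLittleO_log_rpow_atTop hε).bound (by positivity)
  have h2 : Tendsto (fun x : ℝ => x ^ ε) atTop atTop := tendsto_rpow_atTop hε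
  have h3 : ∀ᶠ x : ℝ in atTop, 32 * Real.logb 2 β + 1 ≤ x ^ ε := h2.eventually_ge_atTop _
  have h4 : ∀ᶠ x : ℝ in atTop, (1 : ℝ) ≤ x := eventually_ge_atTop 1
  have h5 := (h1.and (h3.and h4))
  filter_upwards [tendsto_natCast_atTop_atTop.eventually h5] with n hn
  obtain ⟨ha, hb, hc⟩ := hn
  have hn0 : (0 : ℝ) < n := by linarith
  have hrp : 0 < (n : ℝ) ^ ε := Real.rpow_pos_of_pos hn0 ε
  rw [Real.norm_of_nonneg (Real.log_nonneg hc), Real.norm_of_nonneg hrp.le] at ha
  rw [Real.logb_mul hn0.ne' (by linarith)]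
  have h6 : 8 * Real.logb 2 n ≤ (n : ℝ) ^ ε / 4 := by
    unfold Real.logb
    rw [mul_div_assoc', div_le_iff₀ hlog2]
    nlinarith
  have h7 : 8 * Real.logb 2 β ≤ (n : ℝ) ^ ε / 4 := by linarith
  have h8 : (n : ℝ) ^ ε ≤ (289 / 144 : ℝ) ^ ⌈ε * Real.logb 2 n⌉₊ := by
    calc (n : ℝ) ^ ε = (2 : ℝ) ^ (ε * Real.logb 2 n) := by
          rw [mul_comm, Real.rpow_mul (by norm_num), Real.rpow_logb (by norm_num) (by norm_num) hn0]
      _ ≤ (2 : ℝ) ^ ((⌈ε * Real.logb 2 n⌉₊ : ℕ) : ℝ) :=
          Real.rpow_le_rpow_of_exponent_le (by norm_num) (Nat.le_ceil _)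
      _ = (2 : ℝ) ^ ⌈ε * Real.logb 2 n⌉₊ := Real.rpow_natCast _ _
      _ ≤ _ := pow_le_pow_left₀ (by norm_num) (by norm_num) _
  linarith

theorem limit (hlow : S_LOW) (p : ℕ) [hp : Fact p.Prime] (F : Type) [Field F] [Finite F]
    [CharP F p] :
    Tendsto (fun n : ℕ => (mMax p n F : ℝ) / Real.logb 2 n) atTop
      (𝓝 (1 / Real.logb 2 (max p 3 : ℕ))) := by
  obtain ⟨c, hc⟩ : ∃ c, c = cc p := ⟨_, rfl⟩
  have hc3 : 3 ≤ c := by rw [hc]; exact cc_ge p hp.out
  have hc3' : (3 : ℝ) ≤ c := by exact_mod_cast hc3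
  rw [← cc_eq p hp.out, ← hc]
  have hκ : 1 < Real.logb 2 c := log_gt hc3
  have ht : Tendsto (fun n : ℕ => Real.logb 2 n) atTop atTop :=
    (Real.tendsto_logb_atTop (by norm_num)).comp tendsto_natCast_atTop_atTop
  set β : ℝ := Real.logb 2 (Nat.card F) with hβ
  have hβ1 : 1 ≤ β := by
    have h1 : 2 ≤ Nat.card F := Finite.one_lt_card
    have hq : (2 : ℝ) ≤ Nat.card F := by exact_mod_cast h1
    calc (1 : ℝ) = Real.logb 2 2 := (Real.logb_self_eq_one (by norm_num)).symm
      _ ≤ _ := Real.logb_le_logb_of_le (by norm_num) (by norm_num) hq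
  have hchange : ∀ x : ℝ, Real.logb c x = Real.logb 2 x * (1 / Real.logb 2 c) := by
    intro x
    have h4 : Real.log 2 ≠ 0 := (Real.log_pos (by norm_num)).ne'
    have h5 : Real.log c ≠ 0 := (Real.log_pos (by linarith)).ne'
    unfold Real.logb
    field_simp
  rw [tendsto_order]
  constructor
  · intro a ha
    have hε : 0 < 1 / Real.logb 2 c - a := by linarith
    filter_upwards [ht.eventually_ge_atTop (1 + 2 / (1 / Real.logb 2 c - a)),
      eventually_ge_atTop 1] with n hn1 hn2
    have hpos : 0 < 2 / (1 / Real.logb 2 c - a) := by positivity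
    have hlog : 0 < Real.logb 2 n := by linarith
    have hlog2 : 2 < Real.logb 2 n * (1 / Real.logb 2 c - a) := by
      have h1 : 2 / (1 / Real.logb 2 c - a) < Real.logb 2 n := by linarith
      rwa [div_lt_iff₀ hε] at h1
    rw [lt_div_iff₀ hlog]
    have h1 := le_mMax (p := p) (F := F) hlow n hn2
    rw [← hc] at h1
    have h2 : (Nat.log c n : ℝ) ≤ mMax p n F := by exact_mod_cast h1
    have h3 : Real.logb c n < Nat.log c n + 1 := by
      have hn0 : n ≠ 0 := by omega
      have h4 : n < c ^ (Nat.log c n + 1) := Nat.lt_pow_succ_log_self (by omega) n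
      have h5 : (n : ℝ) < (c : ℝ) ^ (Nat.log c n + 1) := by exact_mod_cast h4
      have hn0' : (0 : ℝ) < n := by
        have : 0 < n := by omega
        exact_mod_cast this
      have h6 := Real.logb_lt_logb (b := c) (by linarith) hn0' h5
      rw [Real.logb_pow, Real.logb_self_eq_one (by linarith)] at h6
      push_cast at h6
      linarith
    rw [hchange] at h3
    nlinarith
  · intro a ha
    have hε : 0 < (a - 1 / Real.logb 2 c) / 2 := by linarith
    obtain ⟨ε, hεe⟩ : ∃ ε, ε = (a - 1 / Real.logb 2 c) / 2 := ⟨_, rfl⟩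
    rw [← hεe] at hε
    obtain ⟨C, hC⟩ : ∃ C, C = 5 + Real.logb c β := ⟨_, rfl⟩
    have hC0 : 0 ≤ C := by
      rw [hC]
      have := Real.logb_nonneg (b := c) (by linarith) hβ1
      linarith
    filter_upwards [exists_A β ε hβ1 hε, ht.eventually_ge_atTop (1 + C / ε),
      eventually_ge_atTop 1] with n hnA hn1 hn2
    have hpos : 0 ≤ C / ε := by positivity
    have hlog : 0 < Real.logb 2 n := by linarith
    have hlog2 : C < Real.logb 2 n * ε := by
      have h1 : C / ε < Real.logb 2 n := by linarith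
      rwa [div_lt_iff₀ hε] at h1
    have hn0' : (0 : ℝ) < n := by
      have : 0 < n := by omega
      exact_mod_cast this
    -- the logarithm of the size of the space
    have hNl : (Nat.log 2 (Nat.card F ^ n) : ℝ) ≤ n * β := by
      have h1 := Real.natLog_le_logb (Nat.card F ^ n) 2
      push_cast at h1
      rw [Real.logb_pow] at h1
      exact h1
    have hNl1 : (1 : ℝ) ≤ Nat.log 2 (Nat.card F ^ n) := by
      have h1 : 0 < Nat.log 2 (Nat.card F ^ n) := by
        apply Nat.log_pos (by norm_num)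
        have h2 : 2 ≤ Nat.card F := Finite.one_lt_card
        exact h2.trans (Nat.le_self_pow (by omega) _)
      exact_mod_cast h1
    have hA : 8 * Real.logb 2 (Nat.log 2 (Nat.card F ^ n)) <
        (289 / 144 : ℝ) ^ ⌈ε * Real.logb 2 n⌉₊ := by
      refine lt_of_le_of_lt ?_ hnA
      have h1 := Real.logb_le_logb_of_le (b := 2) (by norm_num) (by linarith) hNl
      linarith
    have h1 := mMax_le (p := p) (F := F) n _ hA
    rw [← hc] at h1
    have h2 : (mMax p n F : ℝ) ≤ (⌈ε * Real.logb 2 n⌉₊ : ℝ) + 4 +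
        Nat.log c (Nat.log 2 (Nat.card F ^ n)) := by exact_mod_cast h1
    have h3 : (⌈ε * Real.logb 2 n⌉₊ : ℝ) < ε * Real.logb 2 n + 1 :=
      Nat.ceil_lt_add_one (by positivity)
    have h4 : (Nat.log c (Nat.log 2 (Nat.card F ^ n)) : ℝ) ≤ Real.logb c (n * β) := by
      refine (Real.natLog_le_logb _ _).trans ?_
      exact Real.logb_le_logb_of_le (by linarith) (by linarith) hNl
    rw [Real.logb_mul hn0'.ne' (by linarith), hchange n] at h4
    rw [div_lt_iff₀ hlog]
    nlinarith

/-- For every prime `p` and every finite field `F` of characteristic `p` (with `q = |F|`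
elements), `m_n(q)` is a maximum and `m_n(q) / log₂ n` tends to `1 / log₂ max(p, 3)`, which is
smaller than `1`; so it does not tend to `1`. -/
theorem result (p : ℕ) [hp : Fact p.Prime] (F : Type) [Field F] [Finite F]
    [CharP F p] :
    (∀ n : ℕ, IsGreatest
      {l | ∃ H : Subgroup (GL (Fin n) F), PSolvable p H ∧ pLength p H = l} (mMax p n F)) ∧
    Tendsto (fun n : ℕ => (mMax p n F : ℝ) / Real.logb 2 n) atTop
      (𝓝 (1 / Real.logb 2 (max p 3 : ℕ))) ∧
    1 / Real.logb 2 (max p 3 : ℕ) < (1 : ℝ) ∧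
    ¬ Tendsto (fun n : ℕ => (mMax p n F : ℝ) / Real.logb 2 n) atTop (𝓝 1) := by
  have h1 := limit low p F
  have h2 : 1 / Real.logb 2 (max p 3 : ℕ) < (1 : ℝ) := by
    have h3 := log_gt (le_max_right p 3)
    rw [div_lt_one (by linarith)]
    exact h3
  refine ⟨fun n => isGreatest_mMax n, h1, h2, fun h3 => ?_⟩
  have h4 := tendsto_nhds_unique h1 h3
  linarith

end Pool.Agent.Results.MP_d3ab46_al.Limit
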